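import Pool.Agent.H97.LA.Targets

/-!
# The projections of a permutation representation
-/

set_option autoImplicit false

namespace Pool.Agent.H19.LA

open Finset Pool.Agent.H60.SYM Pool.Agent.H42.XS Pool.Agent.H97.LA

lemma sg_add (a b : ZMod 2) : sg (a + b) = sg a * sg b := by
  revert a b
  decide

lemma sg_ne {a : ZMod 2} (h : a ≠ 0) : sg a = -1 := by
  simp [sg, h]

lemma sg_zero : sg 0 = 1 := by simp [sg]

lemma sg_sq (a : ZMod 2) : sg a * sg a = 1 := by
  revert a
  decide

lemma add_self' {n : ℕ} (w : Fin n → ZMod 2) : w + w = 0 := by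
  funext i
  exact CharTwo.add_self_eq_zero (w i)

lemma pair_add_left {n : ℕ} (u v w : Fin n → ZMod 2) : pair (u + v) w = pair u w + pair v w := by
  simp [pair, add_mul, sum_add_distrib]

lemma pair_add_right {n : ℕ} (u v w : Fin n → ZMod 2) : pair u (v + w) = pair u v + pair u w := by
  simp [pair, mul_add, sum_add_distrib]

lemma pair_zero {n : ℕ} (u : Fin n → ZMod 2) : pair u 0 = 0 := by
  simp [pair]

lemma pair_single {n : ℕ} (i : Fin n) (w : Fin n → ZMod 2) : pair (Pi.single i 1) w = w i := by
  classical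
  simp [pair, Pi.single_apply]

/-- sums which change the sign under a translation -/
lemma sum_zero {n : ℕ} {X : Type} [AddCommGroup X] (hX : ∀ x : X, x + x = 0 → x = 0)
    (s : Finset (Fin n → ZMod 2)) (t : Fin n → ZMod 2) (hs : ∀ x ∈ s, x + t ∈ s)
    (f : (Fin n → ZMod 2) → X) (hf : ∀ x ∈ s, f (x + t) = -f x) : ∑ x ∈ s, f x = 0 := by
  apply hX
  have h1 : ∑ x ∈ s, f x = ∑ x ∈ s, f (x + t) := by
    refine Finset.sum_nbij' (fun x => x + t) (fun x => x + t) hs hs ?_ ?_ ?_
    · intro x _
      rw [add_assoc, add_self', add_zero]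
    · intro x _
      rw [add_assoc, add_self', add_zero]
    · intro x _
      rw [add_assoc, add_self', add_zero]
  have h2 : ∑ x ∈ s, f (x + t) = -∑ x ∈ s, f x := by
    rw [← Finset.sum_neg_distrib]
    exact Finset.sum_congr rfl hf
  rw [h2] at h1
  nth_rewrite 2 [h1]
  exact add_neg_cancel _

lemma int_two : ∀ x : ℤ, x + x = 0 → x = 0 := by
  intro x h
  omega

/-- orthogonality -/
lemma sum_sg {n : ℕ} (w : Fin n → ZMod 2) :
    ∑ u : Fin n → ZMod 2, sg (pair u w) = if w = 0 then (2 ^ n : ℤ) else 0 := by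
  classical
  split_ifs with h
  · rw [h]
    simp only [pair_zero, sg_zero, sum_const, card_univ, Fintype.card_pi, ZMod.card, prod_const,
      Fintype.card_fin, nsmul_eq_mul, mul_one]
    push_cast
    rfl
  · obtain ⟨i, hi⟩ : ∃ i, w i ≠ 0 := by
      by_contra hcon
      push Not at hcon
      exact h (funext hcon)
    apply sum_zero int_two univ (Pi.single i 1) (fun _ _ => mem_univ _)
    intro u _
    rw [pair_add_left, pair_single, sg_add, sg_ne hi]
    ring

lemma pm_mul {K : Type} [Ring K] {J : Type} [Fintype J] [DecidableEq J] (σ τ : Equiv.Perm J) :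
    pm K σ * pm K τ = pm K (σ * τ) := by
  ext i j
  rw [Matrix.mul_apply]
  simp only [pm]
  rw [Finset.sum_eq_single (τ j)]
  · simp [Equiv.Perm.mul_apply]
  · intro k _ hk
    rw [if_neg hk]
    simp
  · intro h
    exact absurd (mem_univ _) h

lemma pm_one {K : Type} [Ring K] {J : Type} [DecidableEq J] :
    pm K (1 : Equiv.Perm J) = 1 := by
  ext i j
  simp [pm, Matrix.one_apply]

lemma mul_pm {K : Type} [Ring K] {J : Type} [Fintype J] [DecidableEq J] (N : Matrix J J K)
    (σ : Equiv.Perm J) (i j : J) : (N * pm K σ) i j = N i (σ j) := by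
  rw [Matrix.mul_apply]
  simp only [pm]
  rw [Finset.sum_eq_single (σ j)]
  · simp
  · intro k _ hk
    rw [if_neg hk]
    simp
  · intro h
    exact absurd (mem_univ _) h

lemma pm_mul' {K : Type} [Ring K] {J : Type} [Fintype J] [DecidableEq J] (N : Matrix J J K)
    (σ : Equiv.Perm J) (i j : J) : (pm K σ * N) (σ i) j = N i j := by
  rw [Matrix.mul_apply]
  simp only [pm]
  rw [Finset.sum_eq_single i]
  · simp
  · intro k _ hk
    rw [if_neg]
    · simp
    · intro h
      exact hk (σ.injective h).symm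
  · intro h
    exact absurd (mem_univ _) h

section
variable {n : ℕ} {K : Type} [Ring K] {J : Type} [Fintype J] [DecidableEq J]
  (W : Submodule (ZMod 2) (Fin n → ZMod 2)) (b : (Fin n → ZMod 2) → Equiv.Perm J)

open scoped Classical in
/-- the elements of `W` -/
noncomputable def FW : Finset (Fin n → ZMod 2) := univ.filter (fun w => w ∈ W)

lemma mem_FW {w : Fin n → ZMod 2} : w ∈ FW W ↔ w ∈ W := by
  simp [FW]

lemma add_FW {w v : Fin n → ZMod 2} (hv : v ∈ W) (hw : w ∈ FW W) : w + v ∈ FW W := by
  rw [mem_FW] at *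
  exact W.add_mem hw hv

variable {W b}

omit [Fintype J] [DecidableEq J] in
lemma b_zero (hb : ∀ w ∈ W, ∀ w' ∈ W, b (w + w') = b w * b w') : b 0 = 1 := by
  have h := hb 0 W.zero_mem 0 W.zero_mem
  rw [add_zero] at h
  exact (mul_eq_left.1 h.symm)

/-- the sum over `W` of the signs -/
noncomputable def Sw (W : Submodule (ZMod 2) (Fin n → ZMod 2)) (z : Fin n → ZMod 2) : ℤ :=
  ∑ w ∈ FW W, sg (pair z w)

lemma Sw_zero {z : Fin n → ZMod 2} (h : ¬ perp W z) : Sw W z = 0 := by
  simp only [perp, not_forall] at h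
  obtain ⟨w0, hw0, hz⟩ := h
  apply sum_zero int_two (FW W) w0 (fun x hx => add_FW W hw0 hx)
  intro x _
  rw [pair_add_right, sg_add, sg_ne hz]
  ring

lemma sum_Sw : ∑ z : Fin n → ZMod 2, Sw W z = 2 ^ n := by
  unfold Sw
  rw [Finset.sum_comm]
  rw [Finset.sum_eq_single (0 : Fin n → ZMod 2)]
  · rw [sum_sg, if_pos rfl]
  · intro w _ hw
    rw [sum_sg, if_neg hw]
  · intro h
    exact absurd ((mem_FW W).2 W.zero_mem) h

/-- the square of a combination -/
lemma sq_comb (hb : ∀ w ∈ W, ∀ w' ∈ W, b (w + w') = b w * b w') (c : (Fin n → ZMod 2) → ℤ) :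
    (∑ w ∈ FW W, c w • pm K (b w)) * (∑ w ∈ FW W, c w • pm K (b w)) =
      ∑ x ∈ FW W, (∑ w ∈ FW W, c w * c (w + x)) • pm K (b x) := by
  rw [Finset.sum_mul_sum]
  have h1 : ∀ w ∈ FW W, ∑ w' ∈ FW W, (c w • pm K (b w)) * (c w' • pm K (b w')) =
      ∑ x ∈ FW W, (c w * c (w + x)) • pm K (b x) := by
    intro w hw
    refine Finset.sum_nbij' (fun x => w + x) (fun x => w + x) ?_ ?_ ?_ ?_ ?_
    · intro x hx
      rw [mem_FW] at *
      exact W.add_mem hw hx
    · intro x hx
      rw [mem_FW] at *
      exact W.add_mem hw hx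
    · intro x _
      rw [← add_assoc, add_self', zero_add]
    · intro x _
      rw [← add_assoc, add_self', zero_add]
    · intro x hx
      rw [mem_FW] at hw hx
      rw [← add_assoc, add_self', zero_add, smul_mul_smul_comm, pm_mul, ← hb w hw x hx]
  rw [Finset.sum_congr rfl h1, Finset.sum_comm]
  apply Finset.sum_congr rfl
  intro x _
  rw [Finset.sum_smul]

end

theorem pf_EPR : T_EPR := by
  classical
  intro n K _ h2 J _ _ W b hb
  have hX : ∀ x : K, x + x = 0 → x = 0 := by
    intro x hx
    rw [← two_mul] at hx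
    exact (h2.mul_right_eq_zero).1 hx
  have hEE : ∀ u, EE K W b u = ∑ w ∈ FW W, sg (pair u w) • pm K (b w) := fun u => rfl
  refine ⟨?_, ?_, ?_, ?_⟩
  · intro u hu
    ext j i
    rw [hEE]
    simp only [Pool.Agent.H97.LA.YY, not_exists, not_forall] at hu
    obtain ⟨w0, hw0, hbi, hp⟩ := hu i
    rw [Matrix.sum_apply, Matrix.zero_apply]
    apply sum_zero hX (FW W) w0 (fun x hx => add_FW W hw0 hx)
    intro x hx
    rw [mem_FW] at hx
    rw [Matrix.smul_apply, Matrix.smul_apply, pair_add_right, sg_add, sg_ne hp, hb x hx w0 hw0]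
    have e : pm K (b x * b w0) j i = pm K (b x) j i := by
      simp only [pm, Equiv.Perm.mul_apply, hbi]
    rw [e, mul_neg, mul_one, neg_smul]
  · simp only [hEE]
    rw [Finset.sum_comm, Finset.sum_eq_single (0 : Fin n → ZMod 2)]
    · rw [← Finset.sum_smul, sum_sg, if_pos rfl, b_zero hb, pm_one]
    · intro w _ hw
      rw [← Finset.sum_smul, sum_sg, if_neg hw, zero_smul]
    · intro h
      exact absurd ((mem_FW W).2 W.zero_mem) h
  · intro f hf hperp
    have h1 : ∑ u, f u • EE K W b u =
        ∑ w ∈ FW W, (∑ u, f u * sg (pair u w)) • pm K (b w) := by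
      simp only [hEE, Finset.smul_sum, smul_smul]
      rw [Finset.sum_comm]
      apply Finset.sum_congr rfl
      intro w _
      rw [Finset.sum_smul]
    rw [h1, sq_comb hb]
    have h3 : ∀ x, ∑ w ∈ FW W, (∑ u, f u * sg (pair u w)) * (∑ u, f u * sg (pair u (w + x))) =
        if x = 0 then (4 ^ n : ℤ) else 0 := by
      intro x
      have h4 : ∀ w, (∑ u, f u * sg (pair u w)) * (∑ u, f u * sg (pair u (w + x))) =
          ∑ v, ∑ u, (f u * f v * sg (pair v x)) * sg (pair (u + v) w) := by
        intro w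
        rw [Finset.sum_mul_sum, Finset.sum_comm]
        apply Finset.sum_congr rfl
        intro v _
        apply Finset.sum_congr rfl
        intro u _
        rw [pair_add_right, pair_add_left, sg_add, sg_add]
        ring
      simp only [h4]
      rw [Finset.sum_comm]
      have h5 : ∀ v, ∑ w ∈ FW W, ∑ u, (f u * f v * sg (pair v x)) * sg (pair (u + v) w) =
          sg (pair v x) * 2 ^ n := by
        intro v
        rw [Finset.sum_comm]
        have h6 : ∀ u, ∑ w ∈ FW W, (f u * f v * sg (pair v x)) * sg (pair (u + v) w) =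
            sg (pair v x) * Sw W (u + v) := by
          intro u
          rw [← Finset.mul_sum]
          change f u * f v * sg (pair v x) * Sw W (u + v) = _
          by_cases hp : perp W (u + v)
          · have h7 := hperp u (u + v) hp
            rw [← add_assoc, add_self', zero_add] at h7
            rw [h7]
            rcases hf u with h8 | h8 <;> rw [h8] <;> ring
          · rw [Sw_zero hp]
            ring
        simp only [h6]
        rw [← Finset.mul_sum]
        congr 1
        rw [← sum_Sw (W := W)]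
        exact Fintype.sum_equiv (Equiv.addRight v) _ _ (fun u => rfl)
      simp only [h5]
      rw [← Finset.sum_mul, sum_sg]
      split_ifs
      · rw [← mul_pow]
        norm_num
      · ring
    simp only [h3]
    rw [Finset.sum_eq_single (0 : Fin n → ZMod 2)]
    · rw [if_pos rfl, b_zero hb, pm_one]
    · intro w _ hw
      rw [if_neg hw, zero_smul]
    · intro h
      exact absurd ((mem_FW W).2 W.zero_mem) h
  · intro N z hN u
    have h1 : ∀ w ∈ W, N * pm K (b w) = sg (pair z w) • (pm K (b w) * N) := by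
      intro w hw
      ext i j
      obtain ⟨i', rfl⟩ := (b w).surjective i
      rw [mul_pm, Matrix.smul_apply, pm_mul', hN w hw]
    rw [hEE, hEE, Finset.mul_sum, Finset.sum_mul]
    apply Finset.sum_congr rfl
    intro w hw
    rw [mem_FW] at hw
    rw [mul_smul_comm, h1 w hw, smul_smul, smul_mul_assoc, pair_add_left, sg_add]

end Pool.Agent.H19.LA
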