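import Pool.Agent.H97.LA.Targets

/-!
# A clause depends on one right hand side
-/

set_option autoImplicit false

namespace Pool.Agent.H19.LA

open Finset Pool.Agent.H60.SYM Pool.Agent.H42.XS Pool.Agent.H97.LA

theorem pf_INPX (hCLA : T_CLA) : T_INPX := by
  classical
  intro M n d e hd D
  obtain ⟨hinj, hdist⟩ := hd
  by_cases h : ∃ i a, D = cla (e i) a
  · obtain ⟨i, a, hD⟩ := h
    have key : ∀ β : Fin M → ZMod 2, fml e β D = decide (∑ p, a p = β i + 1) := by
      intro β
      unfold fml
      rw [decide_eq_decide]
      constructor
      · rintro ⟨j, a', h1, h2⟩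
        have h3 := (hCLA n d).1 (e i) (e j) a a' (hinj i) (hD.symm.trans h2)
        have h4 : i = j := hdist i j h3.1
        subst h4
        rw [h3.2 rfl]
        exact h1
      · intro h1
        exact ⟨i, a, h1, hD⟩
    refine ⟨Submodule.span (ZMod 2) {Pi.single i 1}, ?_, ?_⟩
    · intro c hc
      rw [Submodule.mem_span_singleton] at hc
      obtain ⟨t, rfl⟩ := hc
      unfold wt
      refine le_trans (Finset.card_le_card (t := {i}) ?_) (by simp)
      intro x hx
      rw [Finset.mem_filter] at hx
      rw [Finset.mem_singleton]
      by_contra hne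
      apply hx.2
      rw [Pi.smul_apply, Pi.single_apply, if_neg hne, smul_zero]
    · intro β β' h1
      have h2 := h1 (Pi.single i 1) (Submodule.mem_span_singleton_self _)
      have h3 : ∀ γ : Fin M → ZMod 2, pair (Pi.single i 1) γ = γ i := by
        intro γ
        simp [pair, Pi.single_apply]
      rw [h3, h3] at h2
      rw [key, key, h2]
  · refine ⟨⊥, ?_, ?_⟩
    · intro c hc
      rw [Submodule.mem_bot] at hc
      rw [hc]
      simp [wt]
    · intro β β' _
      have key : ∀ β : Fin M → ZMod 2, fml e β D = false := by
        intro β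
        unfold fml
        rw [decide_eq_false_iff_not]
        rintro ⟨j, a', h1, h2⟩
        exact h ⟨j, a', h2⟩
      rw [key, key]

end Pool.Agent.H19.LA
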